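import Pool.Agent.H678R2.PiAdic.Good

/-!
# Average `π`-adic complexity of finite sequences

We show `E_n^fin = n/2 + O(1)`, with an implied constant independent of `n`, in both cases
(i) `π² = -N` and (ii) `π^d = N` of the problem.

Proof. The finite complexity of `a` is the least size of a pair `(f, g)` with `g` invertible modulo
`π` in the lattice `L_a = {(f, g) ∈ R² : π^n ∣ g α - f}`, `α = ∑ a_i π^i`. Such a pair determines
`a`, so few sequences have small complexity; a ranking inequality gives the lower bound. For the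
upper bound, the sums of `j ≤ 3 |G| / |A|` elements of a symmetric generating set `A` cover a finite
abelian group `G`; applied to `G = R/π^n × R/π` and the image of a box this produces a pair with
`g ≡ 1` modulo `π`, of size controlled by the number of points of `L_a` in a larger box, and that
number is bounded on average over `a`.
-/

namespace Pool.Agent.Results.MP_cc6759_lc.AverageFinite

open Finset Module
open Pool.Agent.H678R2.PiAdic

universe u

section Defs

variable {R : Type u} [CommRing R]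

/-- The `π`-adic number `∑ b_i π^i` of the sequence `b` (digits in `{0, ..., N-1}`) equals `f/g`:
`g (b_0 + ... + b_{k-1} π^{k-1}) ≡ f` modulo `π^k` for every `k`. -/
def HasValue (N : ℕ) (π : R) (b : ℕ → Fin N) (f g : R) : Prop :=
  ∀ k : ℕ, π ^ k ∣ g * (∑ i ∈ range k, (((b i : ℕ)) : R) * π ^ i) - f

/-- `π`-adic complexity of an infinite sequence `b`, for the size function `φ` on `R`: the least
size `max (φ f) (φ g)` over all `f, g ∈ R` with `g` invertible modulo `π` such that the `π`-adic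
number of `b` is `f/g` (these pairs correspond to the AFSRs with output `b`); it is `⊤ = ∞` if there
is no such pair. -/
noncomputable def lam (φ : R → EReal) (N : ℕ) (π : R) (b : ℕ → Fin N) : EReal :=
  sInf {x : EReal | ∃ f g : R, (∃ h : R, π ∣ g * h - 1) ∧ HasValue N π b f g ∧
    x = max (φ f) (φ g)}

/-- `π`-adic complexity of the finite sequence `a = (a_0, ..., a_{n-1})`: the minimum of `lam` over
all infinite extensions `b` of `a`. -/
noncomputable def lamFin (φ : R → EReal) (N : ℕ) (π : R) (n : ℕ) (a : Fin n → Fin N) : EReal :=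
  sInf {x : EReal | ∃ b : ℕ → Fin N, (∀ i : Fin n, b i = a i) ∧ x = lam φ N π b}

/-- `E_n^fin`: average of the complexity over all `N^n` finite sequences of length `n`. -/
noncomputable def Efin (φ : R → EReal) (N : ℕ) (π : R) (n : ℕ) : ℝ :=
  (∑ a : Fin n → Fin N, (lamFin φ N π n a).toReal) / (N : ℝ) ^ n

/-- Size in case (i), `R = ℤ[√-N]`: `φ(u + v π) = log_N (u² + N v²)`, and `φ(0) = -∞`. -/
noncomputable def phi₁ (N : ℕ) (x : ℤ√(-(N : ℤ))) : EReal :=
  if x = 0 then ⊥ else ((Real.logb N ((x.re : ℝ) ^ 2 + N * (x.im : ℝ) ^ 2) : ℝ) : EReal)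

/-- Size in case (ii), `R = ℤ[π]` with `ℤ`-basis `e = (1, π, ..., π^{d-1})`:
`φ(∑ u_i π^i) = max_{u_i ≠ 0} (d log_N |u_i| + i)`, and `φ(0) = -∞`. -/
noncomputable def phi₂ {d : ℕ} (e : Basis (Fin d) ℤ R) (N : ℕ) (x : R) : EReal :=
  ⨆ i ∈ {i : Fin d | e.repr x i ≠ 0},
    (((d : ℝ) * Real.logb N |((e.repr x i : ℤ) : ℝ)| + (i : ℕ) : ℝ) : EReal)

end Defs

section General

variable {R : Type u} [CommRing R] [IsDomain R] {s : ℕ} {e : Basis (Fin (s + 1)) ℤ R} {ρ : ℝ}
  {π : R} {N : ℕ} {ε : ℤ}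

/-! ### Ranking inequality -/

theorem factorial_le_prod_rank {ι : Type*} [DecidableEq ι] (h : ι → ℝ) (s : Finset ι) :
    (s.card).factorial ≤ ∏ a ∈ s, (s.filter (fun b => h b ≤ h a)).card := by
  classical
  induction s using Finset.induction_on_max_value h with
  | empty => simp
  | insert a s ha hmax ih =>
    rw [Finset.prod_insert ha, Finset.card_insert_of_notMem ha, Nat.factorial_succ]
    have h1 : (insert a s).filter (fun b => h b ≤ h a) = insert a s := by
      apply Finset.filter_true_of_mem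
      intro x hx
      rcases Finset.mem_insert.1 hx with rfl | hx
      · exact le_rfl
      · exact hmax x hx
    rw [h1, Finset.card_insert_of_notMem ha]
    apply Nat.mul_le_mul le_rfl
    refine ih.trans (Finset.prod_le_prod' ?_)
    intro i hi
    apply Finset.card_le_card
    apply Finset.filter_subset_filter
    exact Finset.subset_insert _ _

theorem log_factorial_ge (n : ℕ) (hn : 0 < n) :
    (n : ℝ) * Real.log n - n ≤ Real.log (n.factorial) := by
  have h := Real.pow_div_factorial_le_exp (x := (n : ℝ)) (by positivity) n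
  have hf : (0 : ℝ) < n.factorial := by exact_mod_cast Nat.factorial_pos n
  have hn' : (0 : ℝ) < n := by exact_mod_cast hn
  have h2 : (n : ℝ) ^ n ≤ Real.exp n * n.factorial := by
    rwa [div_le_iff₀ hf] at h
  have h3 := Real.log_le_log (by positivity) h2
  rw [Real.log_pow, Real.log_mul (Real.exp_pos _).ne' hf.ne', Real.log_exp] at h3
  linarith

theorem sum_log_ge {ι : Type*} [DecidableEq ι] (h : ι → ℝ) (s : Finset ι) (hs : 0 < s.card)
    (hpos : ∀ a ∈ s, 1 ≤ h a) (C : ℝ) (hC : 0 < C) (k : ℕ)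
    (hc : ∀ X : ℝ, 1 ≤ X → ((s.filter (fun b => h b ≤ X)).card : ℝ) ≤ C * X ^ k) :
    (s.card : ℝ) * (Real.log s.card - 1 - Real.log C) ≤ k * ∑ a ∈ s, Real.log (h a) := by
  have h1 := factorial_le_prod_rank h s
  have h3 : ((s.card).factorial : ℝ) ≤ ∏ a ∈ s, (C * (h a) ^ k) := by
    have : ((s.card).factorial : ℝ) ≤ ∏ a ∈ s, ((s.filter (fun b => h b ≤ h a)).card : ℝ) := by
      exact_mod_cast h1
    refine this.trans (Finset.prod_le_prod (fun _ _ => by positivity) ?_)
    intro a ha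
    exact hc _ (hpos a ha)
  have h4 := Real.log_le_log (by exact_mod_cast Nat.factorial_pos _) h3
  have hne : ∀ a ∈ s, 0 < h a := fun a ha => by linarith [hpos a ha]
  rw [Real.log_prod (fun a ha => by have := hne a ha; positivity)] at h4
  have h5 : ∑ a ∈ s, Real.log (C * (h a) ^ k) = s.card * Real.log C + k * ∑ a ∈ s, Real.log (h a) := by
    rw [Finset.mul_sum]
    rw [← nsmul_eq_mul, ← Finset.sum_const, ← Finset.sum_add_distrib]
    apply Finset.sum_congr rfl
    intro a ha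
    rw [Real.log_mul hC.ne' (by have := hne a ha; positivity), Real.log_pow]
  rw [h5] at h4
  have h6 := log_factorial_ge s.card hs
  linarith

/-! ### Admissible pairs -/

/-- `g` invertible modulo `π` and `g α ≡ f` modulo `π^n` -/
def Adm (π : R) {N : ℕ} (n : ℕ) (a : Fin n → Fin N) (p : R × R) : Prop :=
  (∃ h : R, π ∣ p.2 * h - 1) ∧ π ^ n ∣ p.2 * dig π n a - p.1

omit [IsDomain R] in
theorem unit_pow {g : R} (hg : ∃ h : R, π ∣ g * h - 1) (n : ℕ) : ∃ h : R, π ^ n ∣ g * h - 1 := by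
  induction n with
  | zero => exact ⟨0, by simp⟩
  | succ n ih =>
    obtain ⟨h, k, hk⟩ := hg
    obtain ⟨h', k', hk'⟩ := ih
    refine ⟨h + h' - g * h * h', -(k * k'), ?_⟩
    have e1 : g * (h + h' - g * h * h') - 1 = -((g * h - 1) * (g * h' - 1)) := by ring
    rw [e1, hk, hk', pow_succ]
    ring

omit [IsDomain R] in
theorem h_not_dvd_one (H : Hyp e ρ π N ε) : ¬ π ∣ 1 := by
  intro h
  have h1 : π ∣ ((1 : ℤ) : R) := by simpa using h
  have h2 := H.int_dvd h1
  have h3 := Int.le_of_dvd one_pos h2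
  have := H.N2
  omega

theorem h_adm_ne (H : Hyp e ρ π N ε) {g : R} (hg : ∃ h : R, π ∣ g * h - 1) : g ≠ 0 := by
  rintro rfl
  obtain ⟨h, hh⟩ := hg
  rw [zero_mul, zero_sub, dvd_neg] at hh
  exact h_not_dvd_one H hh

omit [IsDomain R] in
theorem dvd_of_unit {g : R} (hg : ∃ h : R, π ∣ g * h - 1) (n : ℕ) {x : R} (hx : π ^ n ∣ g * x) :
    π ^ n ∣ x := by
  obtain ⟨h, hh⟩ := unit_pow hg n
  have e1 : x = h * (g * x) - (g * h - 1) * x := by ring
  rw [e1]
  exact dvd_sub (Dvd.dvd.mul_left hx _) (Dvd.dvd.mul_right hh _)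

omit [IsDomain R] in
theorem sum_range_eq_dig (n : ℕ) (b : ℕ → Fin N) :
    ∑ i ∈ range n, (((b i : ℕ)) : R) * π ^ i = dig π n (fun i : Fin n => b i) := by
  unfold dig
  rw [Finset.sum_range]

/-- every admissible pair is the value of an infinite extension -/
theorem h_exists_ext (H : Hyp e ρ π N ε) {n : ℕ} {a : Fin n → Fin N} {p : R × R}
    (hp : Adm π n a p) : ∃ b : ℕ → Fin N, (∀ i : Fin n, b i = a i) ∧ HasValue N π b p.1 p.2 := by
  obtain ⟨f, g⟩ := p
  obtain ⟨hg, hdvd⟩ := hp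
  simp only at hg hdvd ⊢
  obtain ⟨h, hh⟩ := id hg
  have hdig : ∀ c : R, ∃ d : Fin N, π ∣ c - g * ((d : ℕ) : R) := by
    intro c
    obtain ⟨d, hd⟩ := H.exists_digit (h * c)
    refine ⟨d, ?_⟩
    have e1 : c - g * ((d : ℕ) : R) = g * (h * c - ((d : ℕ) : R)) - (g * h - 1) * c := by ring
    rw [e1]
    exact dvd_sub (Dvd.dvd.mul_left hd _) (Dvd.dvd.mul_right hh _)
  choose dg hdgs using hdig
  choose step hstep using hdgs
  have key : ∀ k, g * (∑ i ∈ range k, (((dg (step^[i] f) : ℕ)) : R) * π ^ i) - f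
      = -(π ^ k * step^[k] f) := by
    intro k
    induction k with
    | zero => simp
    | succ k ih =>
      rw [Finset.sum_range_succ, Function.iterate_succ_apply']
      have h1 := hstep (step^[k] f)
      have h2 : π ^ (k + 1) * step (step^[k] f) = π ^ k * (π * step (step^[k] f)) := by
        rw [pow_succ]; ring
      rw [h2, ← h1]
      linear_combination ih
  have hval : HasValue N π (fun i => dg (step^[i] f)) f g := by
    intro k
    rw [key]
    exact (dvd_neg).2 (Dvd.intro _ rfl)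
  refine ⟨fun i => dg (step^[i] f), ?_, hval⟩
  have h1 := hval n
  rw [sum_range_eq_dig] at h1
  have h2 : π ^ n ∣ g * (dig π n (fun i : Fin n => dg (step^[(i : ℕ)] f)) - dig π n a) := by
    have := dvd_sub h1 hdvd
    have e1 : g * (dig π n (fun i : Fin n => dg (step^[(i : ℕ)] f)) - dig π n a)
        = g * dig π n (fun i : Fin n => dg (step^[(i : ℕ)] f)) - f - (g * dig π n a - f) := by ring
    rw [e1]; exact this
  have h3 := H.dig_inj n _ _ (dvd_of_unit hg n h2)
  intro i
  exact congrFun h3 i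

/-! ### The average for a size function comparable to the norm -/

/-- `φ` agrees with `(s+1) log_N |x|` up to `c₀`. -/
structure Comparable (e : Basis (Fin (s + 1)) ℤ R) (ρ : ℝ) (N : ℕ) (φ : R → EReal) (c₀ : ℝ) :
    Prop where
  zero : φ 0 = ⊥
  ne : ∀ x, x ≠ 0 → ∃ t : ℝ, φ x = (t : EReal) ∧ |t - (s + 1) * Real.logb N (nrm e ρ x)| ≤ c₀

omit [IsDomain R] in
theorem h_logb_mono (H : Hyp e ρ π N ε) {x y : ℝ} (hx : 0 < x) (hxy : x ≤ y) :
    Real.logb N x ≤ Real.logb N y := by
  have hN1 : (1 : ℝ) < N := by have := H.N2; exact_mod_cast (by omega : 1 < N)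
  exact Real.logb_le_logb_of_le hN1 hx hxy

/-- upper bound for `φ` -/
theorem h_phi_le (H : Hyp e ρ π N ε) {φ : R → EReal} {c₀ : ℝ} (hφ : Comparable e ρ N φ c₀)
    {x : R} {X : ℝ} (hx : nrm e ρ x ≤ X) :
    φ x ≤ (((s + 1) * Real.logb N X + c₀ : ℝ) : EReal) := by
  by_cases hx0 : x = 0
  · rw [hx0, hφ.zero]; exact bot_le
  · obtain ⟨t, ht, hb⟩ := hφ.ne x hx0
    rw [ht, EReal.coe_le_coe_iff]
    have h1 := one_le_nrm e ρ H.hρ hx0
    have h2 := h_logb_mono H (by linarith) hx
    have h3 : ((s : ℝ) + 1) * Real.logb N (nrm e ρ x) ≤ (s + 1) * Real.logb N X :=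
      mul_le_mul_of_nonneg_left h2 (by positivity)
    have := (abs_le.1 hb).2
    linarith

omit [IsDomain R] in
/-- lower bound for the size -/
theorem h_le_phi (H : Hyp e ρ π N ε) {φ : R → EReal} {c₀ : ℝ} (hφ : Comparable e ρ N φ c₀)
    {f g : R} (hg : g ≠ 0) {T : ℝ} (hT : max (φ f) (φ g) ≤ (T : EReal)) :
    (s + 1) * Real.logb N (max (nrm e ρ f) (nrm e ρ g)) ≤ T + c₀ := by
  have hg1 := one_le_nrm e ρ H.hρ hg
  have h1 : ∀ x : R, x ≠ 0 → φ x ≤ (T : EReal) → (s + 1) * Real.logb N (nrm e ρ x) ≤ T + c₀ := by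
    intro x hx hxT
    obtain ⟨t, ht, hb⟩ := hφ.ne x hx
    rw [ht, EReal.coe_le_coe_iff] at hxT
    have := (abs_le.1 hb).1
    linarith
  have h2 := h1 g hg ((le_max_right _ _).trans hT)
  by_cases hf : f = 0
  · rw [hf, nrm_zero, max_eq_right (by linarith)]
    exact h2
  · have h3 := h1 f hf ((le_max_left _ _).trans hT)
    rcases max_choice (nrm e ρ f) (nrm e ρ g) with h | h <;> rw [h] <;> assumption

/-- the minimum is attained by an admissible pair -/
theorem h_exists_min (H : Hyp e ρ π N ε) {φ : R → EReal} {c₀ : ℝ} (hφ : Comparable e ρ N φ c₀)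
    (n : ℕ) (a : Fin n → Fin N) :
    ∃ p : R × R, Adm π n a p ∧ (∀ q : R × R, Adm π n a q → max (φ p.1) (φ p.2) ≤ max (φ q.1) (φ q.2))
      ∧ ∃ t : ℝ, max (φ p.1) (φ p.2) = (t : EReal) := by
  classical
  have hN1 : (1 : ℝ) < N := by have := H.N2; exact_mod_cast (by omega : 1 < N)
  have hρ0 : (0 : ℝ) < ρ := by linarith [H.hρ]
  have hreal : ∀ q : R × R, Adm π n a q → ∃ t : ℝ, max (φ q.1) (φ q.2) = (t : EReal) := by
    rintro ⟨f, g⟩ hq
    obtain ⟨t, ht, _⟩ := hφ.ne g (h_adm_ne H hq.1)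
    simp only
    by_cases hf : f = 0
    · exact ⟨t, by rw [hf, hφ.zero, ht]; simp⟩
    · obtain ⟨t', ht', _⟩ := hφ.ne f hf
      refine ⟨max t' t, ?_⟩
      rw [ht, ht']
      exact (EReal.coe_strictMono.monotone.map_max).symm
  have hq0 : Adm π n a (dig π n a, 1) := ⟨⟨1, by simp⟩, by simp⟩
  obtain ⟨T, hT⟩ := hreal _ hq0
  set X : ℝ := (N : ℝ) ^ ((T + c₀) / (s + 1)) with hX
  have hX0 : 0 ≤ X := by positivity
  set S := (ball e ρ X ×ˢ ball e ρ X).filter (fun q => Adm π n a q) with hS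
  have hmem : ∀ q : R × R, Adm π n a q → max (φ q.1) (φ q.2) ≤ (T : EReal) → q ∈ S := by
    intro q hq hqT
    have h1 := h_le_phi H hφ (h_adm_ne H hq.1) hqT
    have hg1 := one_le_nrm e ρ H.hρ (h_adm_ne H hq.1)
    have h2 : max (nrm e ρ q.1) (nrm e ρ q.2) ≤ X := by
      have hpos : 0 < max (nrm e ρ q.1) (nrm e ρ q.2) := lt_max_of_lt_right (by linarith)
      rw [hX, ← Real.logb_le_iff_le_rpow hN1 hpos, le_div_iff₀ (by positivity)]
      linarith
    rw [hS, Finset.mem_filter, Finset.mem_product, mem_ball e ρ hρ0 hX0, mem_ball e ρ hρ0 hX0]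
    exact ⟨⟨(le_max_left _ _).trans h2, (le_max_right _ _).trans h2⟩, hq⟩
  have hne : S.Nonempty := ⟨_, hmem _ hq0 hT.le⟩
  obtain ⟨p, hpS, hpmin⟩ := Finset.exists_min_image S (fun q => max (φ q.1) (φ q.2)) hne
  have hpadm : Adm π n a p := (Finset.mem_filter.1 hpS).2
  refine ⟨p, hpadm, ?_, hreal p hpadm⟩
  intro q hq
  rcases le_or_gt (max (φ q.1) (φ q.2)) (T : EReal) with h | h
  · exact hpmin q (hmem q hq h)
  · have h1 := hpmin _ (hmem _ hq0 hT.le)
    rw [hT] at h1
    exact h1.trans h.le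

/-- the finite complexity is attained and equals the least size of an admissible pair -/
theorem h_lamFin_spec (H : Hyp e ρ π N ε) {φ : R → EReal} {n : ℕ} {a : Fin n → Fin N} {p : R × R}
    (hp : Adm π n a p)
    (hmin : ∀ q : R × R, Adm π n a q → max (φ p.1) (φ p.2) ≤ max (φ q.1) (φ q.2)) :
    lamFin φ N π n a = max (φ p.1) (φ p.2) ∧
      ∃ b : ℕ → Fin N, (∀ i : Fin n, b i = a i) ∧ lam φ N π b = lamFin φ N π n a := by
  have hlow : ∀ b : ℕ → Fin N, (∀ i : Fin n, b i = a i) → max (φ p.1) (φ p.2) ≤ lam φ N π b := by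
    intro b hb
    apply le_sInf
    rintro x ⟨f, g, hg, hval, rfl⟩
    apply hmin (f, g)
    refine ⟨hg, ?_⟩
    have := hval n
    rw [sum_range_eq_dig] at this
    have e1 : (fun i : Fin n => b i) = a := funext hb
    rwa [e1] at this
  obtain ⟨b, hb, hval⟩ := h_exists_ext H hp
  have hup : lam φ N π b ≤ max (φ p.1) (φ p.2) := sInf_le ⟨p.1, p.2, hp.1, hval, rfl⟩
  have h1 : lamFin φ N π n a ≤ lam φ N π b := sInf_le ⟨b, hb, rfl⟩
  have h2 : max (φ p.1) (φ p.2) ≤ lamFin φ N π n a := by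
    apply le_sInf
    rintro x ⟨b', hb', rfl⟩
    exact hlow b' hb'
  exact ⟨le_antisymm (h1.trans hup) h2, b, hb, le_antisymm (hup.trans h2) h1⟩

theorem h_average (H : Hyp e ρ π N ε) {φ : R → EReal} {c₀ : ℝ} (hφ : Comparable e ρ N φ c₀) :
    (∀ (n : ℕ) (a : Fin n → Fin N),
      (∃ b : ℕ → Fin N, (∀ i : Fin n, b i = a i) ∧ lam φ N π b = lamFin φ N π n a) ∧
      ∃ t : ℝ, lamFin φ N π n a = (t : EReal)) ∧
    ∃ C : ℝ, ∀ n : ℕ, |Efin φ N π n - (n : ℝ) / 2| ≤ C := by
  classical
  have hN1 : (1 : ℝ) < N := by have := H.N2; exact_mod_cast (by omega : 1 < N)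
  have hρ0 : (0 : ℝ) < ρ := by linarith [H.hρ]
  have hlogN : 0 < Real.log N := Real.log_pos hN1
  have hNpos : (0 : ℝ) < N := by linarith
  refine ⟨?_, ?_⟩
  · intro n a
    obtain ⟨p, hp, hmin, t, ht⟩ := h_exists_min H hφ n a
    obtain ⟨h1, h2⟩ := h_lamFin_spec H hp hmin
    exact ⟨h2, t, h1.trans ht⟩
  set C₁ : ℝ := (6 * N : ℝ) ^ (s + 1) + (36 * (1 + (s + 1) * N) * N ^ 2) ^ (s + 1) with hC₁
  set Klow : ℝ := c₀ + (1 + Real.log (3 ^ (2 * (s + 1)))) / (2 * Real.log N) with hKlow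
  set Kup : ℝ := c₀ + (s + 1) * (Real.log (3 * N ^ 2) + C₁) / Real.log N with hKup
  refine ⟨max Klow Kup, ?_⟩
  intro n
  have hQr : (0 : ℝ) < (N : ℝ) ^ n := by positivity
  have hcard : ((Finset.univ : Finset (Fin n → Fin N)).card : ℝ) = (N : ℝ) ^ n := by
    rw [Finset.card_univ]; simp
  choose p hp hmin t ht using fun a : Fin n → Fin N => h_exists_min H hφ n a
  have hlam : ∀ a, (lamFin φ N π n a).toReal = t a := by
    intro a
    rw [(h_lamFin_spec H (hp a) (hmin a)).1, ht a, EReal.toReal_coe]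
  have hE : Efin φ N π n = (∑ a, t a) / (N : ℝ) ^ n := by
    unfold Efin
    simp only [hlam]
  -- lower bound
  set h : (Fin n → Fin N) → ℝ := fun a => max (nrm e ρ (p a).1) (nrm e ρ (p a).2) with hh
  have hh1 : ∀ a, 1 ≤ h a := fun a =>
    le_max_of_le_right (one_le_nrm e ρ H.hρ (h_adm_ne H (hp a).1))
  have hcount : ∀ X : ℝ, 1 ≤ X →
      (((Finset.univ : Finset (Fin n → Fin N)).filter (fun b => h b ≤ X)).card : ℝ)
        ≤ 3 ^ (2 * (s + 1)) * X ^ (2 * (s + 1)) := by
    intro X hX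
    have h1 : ((Finset.univ : Finset (Fin n → Fin N)).filter (fun b => h b ≤ X)).card
        ≤ (ball e ρ X ×ˢ ball e ρ X).card := by
      apply Finset.card_le_card_of_injOn p
      · intro a ha
        have ha' := (Finset.mem_filter.1 (Finset.mem_coe.1 ha)).2
        rw [Finset.mem_coe, Finset.mem_product, mem_ball e ρ hρ0 (by linarith),
          mem_ball e ρ hρ0 (by linarith)]
        exact ⟨(le_max_left _ _).trans ha', (le_max_right _ _).trans ha'⟩
      · intro a _ a' _ haa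
        have h2 := (hp a).2
        have h3 := (hp a').2
        rw [← haa] at h3
        have h4 : π ^ n ∣ (p a).2 * (dig π n a - dig π n a') := by
          have := dvd_sub h2 h3
          have e1 : (p a).2 * (dig π n a - dig π n a')
              = (p a).2 * dig π n a - (p a).1 - ((p a).2 * dig π n a' - (p a).1) := by ring
          rw [e1]; exact this
        exact H.dig_inj n _ _ (dvd_of_unit (hp a).1 n h4)
    have h2 := card_ball_le e ρ H.hρ hX
    have h3 : ((ball e ρ X ×ˢ ball e ρ X).card : ℝ) = ((ball e ρ X).card : ℝ) ^ 2 := by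
      rw [Finset.card_product]; push_cast; ring
    calc (((Finset.univ : Finset (Fin n → Fin N)).filter (fun b => h b ≤ X)).card : ℝ)
        ≤ ((ball e ρ X ×ˢ ball e ρ X).card : ℝ) := by exact_mod_cast h1
      _ = ((ball e ρ X).card : ℝ) ^ 2 := h3
      _ ≤ ((3 * X) ^ (s + 1)) ^ 2 := pow_le_pow_left₀ (by positivity) h2 2
      _ = 3 ^ (2 * (s + 1)) * X ^ (2 * (s + 1)) := by
          rw [mul_pow, mul_pow, ← pow_mul, ← pow_mul, mul_comm (s + 1) 2]
  have hcardpos : 0 < (Finset.univ : Finset (Fin n → Fin N)).card := by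
    have : (0 : ℝ) < ((Finset.univ : Finset (Fin n → Fin N)).card : ℝ) := by rw [hcard]; exact hQr
    exact_mod_cast this
  have hrank := sum_log_ge h Finset.univ hcardpos (fun a _ => hh1 a) (3 ^ (2 * (s + 1)))
    (by positivity) (2 * (s + 1)) hcount
  rw [hcard, Real.log_pow] at hrank
  have htlow : ∀ a, (s + 1) * (Real.log (h a) / Real.log N) - c₀ ≤ t a := by
    intro a
    have := h_le_phi H hφ (h_adm_ne H (hp a).1) (ht a).le
    have e1 : Real.logb N (max (nrm e ρ (p a).1) (nrm e ρ (p a).2)) = Real.log (h a) / Real.log N := rfl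
    rw [e1] at this
    linarith
  have hlow : (N : ℝ) ^ n * ((n : ℝ) / 2 - Klow) ≤ ∑ a, t a := by
    have h1 : ∑ a : Fin n → Fin N, ((s + 1) * (Real.log (h a) / Real.log N) - c₀) ≤ ∑ a, t a :=
      Finset.sum_le_sum (fun a _ => htlow a)
    rw [Finset.sum_sub_distrib, Finset.sum_const, nsmul_eq_mul, hcard, ← Finset.mul_sum,
      ← Finset.sum_div] at h1
    refine le_trans ?_ h1
    have h2 : (N : ℝ) ^ n * ((n : ℝ) * Real.log N - 1 - Real.log (3 ^ (2 * (s + 1)))) / (2 * Real.log N)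
        ≤ (s + 1) * ((∑ a, Real.log (h a)) / Real.log N) := by
      rw [div_le_iff₀ (by positivity)]
      refine hrank.trans (le_of_eq ?_)
      push_cast
      field_simp
    refine le_trans (le_of_eq ?_) (sub_le_sub_right h2 _)
    rw [hKlow]
    field_simp
    ring
  -- upper bound
  set Y := Real.sqrt (ρ ^ n) with hY
  have hYpos : 0 < Y := Real.sqrt_pos.2 (by positivity)
  have hlogY : (s + 1) * Real.log Y = n * Real.log N / 2 := by
    rw [hY, Real.log_sqrt (by positivity), Real.log_pow, ← H.hρN, Real.log_pow]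
    push_cast
    ring
  set m : (Fin n → Fin N) → ℕ := fun a => mult e ρ π N n (2 * (N * Y)) a with hm
  have htup : ∀ a, t a ≤ (s + 1) * ((Real.log (3 * N ^ 2) + m a) / Real.log N) + n / 2 + c₀ := by
    intro a
    obtain ⟨f, g, hg1, hdvd, hf, hg⟩ := H.exists_good n a
    have hadm : Adm π n a (f, g) := ⟨⟨1, by simpa using hg1⟩, hdvd⟩
    have hg0 := h_adm_ne H hadm.1
    have hg1' := one_le_nrm e ρ H.hρ hg0
    set X : ℝ := 3 * N ^ 2 * m a * Y with hX
    have hX1 : 1 ≤ X := hg1'.trans hg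
    have hmpos : 0 < m a := by
      rcases Nat.eq_zero_or_pos (m a) with h0 | h0
      · rw [hX, h0] at hX1
        simp at hX1
        linarith
      · exact h0
    have hmr : (0 : ℝ) < m a := by exact_mod_cast hmpos
    have h1 := hmin a _ hadm
    rw [ht a] at h1
    have h2 : max (φ f) (φ g) ≤ (((s + 1) * Real.logb N X + c₀ : ℝ) : EReal) :=
      max_le (h_phi_le H hφ hf) (h_phi_le H hφ hg)
    have h3 := h1.trans h2
    rw [EReal.coe_le_coe_iff] at h3
    refine h3.trans ?_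
    have h4 : Real.log X ≤ Real.log (3 * N ^ 2) + m a + Real.log Y := by
      rw [hX, Real.log_mul (by positivity) hYpos.ne', Real.log_mul (by positivity) hmr.ne']
      have := Real.log_le_sub_one_of_pos hmr
      linarith
    have h5 : (s + 1) * Real.logb N X ≤ (s + 1) * ((Real.log (3 * N ^ 2) + m a) / Real.log N) + n / 2 := by
      unfold Real.logb
      have h6 : (s + 1) * (Real.log X / Real.log N)
          ≤ (s + 1) * ((Real.log (3 * N ^ 2) + m a + Real.log Y) / Real.log N) := by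
        apply mul_le_mul_of_nonneg_left _ (by positivity)
        exact div_le_div_of_nonneg_right h4 hlogN.le
      refine h6.trans (le_of_eq ?_)
      have h7 : (s + 1) * ((Real.log (3 * N ^ 2) + m a + Real.log Y) / Real.log N)
          = (s + 1) * ((Real.log (3 * N ^ 2) + m a) / Real.log N)
            + ((s + 1) * Real.log Y) / Real.log N := by ring
      rw [h7, hlogY]
      field_simp
    linarith
  have hsum := H.sum_mult_le n
  have hup : ∑ a, t a ≤ (N : ℝ) ^ n * ((n : ℝ) / 2 + Kup) := by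
    have h1 : ∑ a, t a ≤ ∑ a : Fin n → Fin N,
        ((s + 1) * ((Real.log (3 * N ^ 2) + m a) / Real.log N) + n / 2 + c₀) :=
      Finset.sum_le_sum (fun a _ => htup a)
    refine h1.trans ?_
    rw [Finset.sum_add_distrib, Finset.sum_add_distrib, Finset.sum_const, Finset.sum_const,
      nsmul_eq_mul, nsmul_eq_mul, hcard, ← Finset.mul_sum, ← Finset.sum_div,
      Finset.sum_add_distrib, Finset.sum_const, nsmul_eq_mul, hcard]
    have h2 : (∑ a, (m a : ℝ)) ≤ C₁ * (N : ℝ) ^ n := hsum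
    have h3 : (s + 1) * (((N : ℝ) ^ n * Real.log (3 * N ^ 2) + ∑ a, (m a : ℝ)) / Real.log N)
        ≤ (s + 1) * (((N : ℝ) ^ n * Real.log (3 * N ^ 2) + C₁ * (N : ℝ) ^ n) / Real.log N) := by
      apply mul_le_mul_of_nonneg_left _ (by positivity)
      apply div_le_div_of_nonneg_right _ hlogN.le
      linarith
    refine (add_le_add_left (add_le_add_left h3 _) _).trans (le_of_eq ?_)
    rw [hKup]
    field_simp
    ring
  rw [hE, abs_le]
  constructor
  · have h1 : (n : ℝ) / 2 - Klow ≤ (∑ a, t a) / (N : ℝ) ^ n := by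
      rw [le_div_iff₀ hQr]; linarith
    have := le_max_left Klow Kup
    linarith
  · have h1 : (∑ a, t a) / (N : ℝ) ^ n ≤ (n : ℝ) / 2 + Kup := by
      rw [div_le_iff₀ hQr]; linarith
    have := le_max_right Klow Kup
    linarith

end General

/-! ### Case (ii): `π^d = N` -/

section CaseTwo

variable {R : Type u} [CommRing R] [IsDomain R] {s : ℕ}

theorem hyp_two (N : ℕ) (hN : 2 ≤ N) (π : R) (e : Basis (Fin (s + 1)) ℤ R)
    (he : ∀ i, e i = π ^ (i : ℕ)) (hπ : π ^ (s + 1) = (N : R)) :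
    Hyp e ((N : ℝ) ^ ((1 : ℝ) / (s + 1))) π N 1 := by
  have hN1 : (1 : ℝ) ≤ N := by exact_mod_cast (by omega : 1 ≤ N)
  refine ⟨hN, Real.one_le_rpow hN1 (by positivity), ?_, by norm_num, he, ?_⟩
  · rw [← Real.rpow_natCast, ← Real.rpow_mul (by linarith)]
    push_cast
    rw [one_div, inv_mul_cancel₀ (by positivity), Real.rpow_one]
  · rw [hπ]
    push_cast
    ring

theorem comparable_two (N : ℕ) (hN : 2 ≤ N) (e : Basis (Fin (s + 1)) ℤ R) :
    Comparable e ((N : ℝ) ^ ((1 : ℝ) / (s + 1))) N (phi₂ e N) 0 := by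
  have hN1 : (1 : ℝ) < N := by exact_mod_cast (by omega : 1 < N)
  set ρ : ℝ := (N : ℝ) ^ ((1 : ℝ) / (s + 1)) with hρdef
  have hρ1 : 1 ≤ ρ := Real.one_le_rpow hN1.le (by positivity)
  have hρ0 : 0 < ρ := by linarith
  have hlogN : Real.log N ≠ 0 := (Real.log_pos hN1).ne'
  have hlogρ : Real.logb N ρ = 1 / (s + 1) := by
    rw [hρdef, Real.logb_rpow (by linarith) hN1.ne']
  have hterm : ∀ (k : ℤ) (i : Fin (s + 1)), k ≠ 0 →
      ((s + 1 : ℕ) : ℝ) * Real.logb N |(k : ℝ)| + (i : ℕ)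
        = ((s : ℝ) + 1) * Real.logb N (|(k : ℝ)| * ρ ^ (i : ℕ)) := by
    intro k i hk
    have hk' : |(k : ℝ)| ≠ 0 := by
      rw [abs_ne_zero]; exact_mod_cast hk
    rw [Real.logb_mul hk' (pow_pos hρ0 _).ne', Real.logb_pow, hlogρ]
    push_cast
    have : ((s : ℝ) + 1) ≠ 0 := by positivity
    field_simp
  constructor
  · unfold phi₂
    simp
  · intro x hx
    refine ⟨((s : ℝ) + 1) * Real.logb N (nrm e ρ x), ?_, by simp⟩
    have hnorm1 := one_le_nrm e ρ hρ1 hx
    apply le_antisymm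
    · unfold phi₂
      apply iSup₂_le
      intro i hi
      have hi' : e.repr x i ≠ 0 := hi
      rw [EReal.coe_le_coe_iff, hterm _ i hi']
      apply mul_le_mul_of_nonneg_left _ (by positivity)
      apply Real.logb_le_logb_of_le hN1
      · have : |((e.repr x i : ℤ) : ℝ)| ≠ 0 := by
          rw [abs_ne_zero]; exact_mod_cast hi'
        positivity
      · exact coord_le_nrm e ρ hρ0.le x i
    · have hex : ∃ i : Fin (s + 1), nrm e ρ x ≤ |((e.repr x i : ℤ) : ℝ)| * ρ ^ (i : ℕ) := by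
        by_contra hcon
        push Not at hcon
        have h1 : nrm e ρ x < nrm e ρ x := by
          conv_lhs => unfold nrm
          rw [pi_norm_lt_iff (by linarith)]
          intro i
          rw [Real.norm_eq_abs, abs_mul, abs_of_nonneg (pow_nonneg hρ0.le _)]
          exact hcon i
        exact lt_irrefl _ h1
      obtain ⟨i, hi⟩ := hex
      have hi0 : e.repr x i ≠ 0 := by
        intro h0
        rw [h0] at hi
        simp at hi
        linarith
      have h2 : ((((s : ℝ) + 1) * Real.logb N (nrm e ρ x) : ℝ) : EReal)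
          ≤ ((((s + 1 : ℕ) : ℝ) * Real.logb N |((e.repr x i : ℤ) : ℝ)| + (i : ℕ) : ℝ) : EReal) := by
        rw [EReal.coe_le_coe_iff, hterm _ i hi0]
        apply mul_le_mul_of_nonneg_left _ (by positivity)
        exact Real.logb_le_logb_of_le hN1 (by linarith) hi
      refine h2.trans ?_
      unfold phi₂
      exact le_iSup₂_of_le i hi0 le_rfl

end CaseTwo

/-! ### Case (i): `π² = -N` -/

/-- the basis `(1, √d)` of `ℤ[√d]` -/
noncomputable def zbasis (d : ℤ) : Basis (Fin (1 + 1)) ℤ (ℤ√d) :=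
  Basis.ofEquivFun
    { toFun := fun z => ![z.re, z.im]
      invFun := fun v => ⟨v 0, v 1⟩
      left_inv := fun z => by cases z; rfl
      right_inv := fun v => by
        funext i
        fin_cases i <;> rfl
      map_add' := fun x y => by
        funext i
        fin_cases i <;> simp
      map_smul' := fun k x => by
        funext i
        fin_cases i <;> simp }

theorem zbasis_repr_zero (d : ℤ) (x : ℤ√d) : (zbasis d).repr x 0 = x.re := rfl
theorem zbasis_repr_one (d : ℤ) (x : ℤ√d) : (zbasis d).repr x 1 = x.im := rfl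

theorem zbasis_apply (d : ℤ) (i : Fin (1 + 1)) : zbasis d i = (Zsqrtd.sqrtd : ℤ√d) ^ (i : ℕ) := by
  unfold zbasis
  rw [Basis.coe_ofEquivFun]
  fin_cases i
  · ext <;> simp
  · ext <;> simp

theorem isDomain_zsqrtd (N : ℕ) (hN : 2 ≤ N) : IsDomain (ℤ√(-(N : ℤ))) := by
  have : NoZeroDivisors (ℤ√(-(N : ℤ))) := by
    constructor
    intro a b hab
    have h1 := Zsqrtd.norm_mul a b
    rw [hab, Zsqrtd.norm_zero] at h1
    have hd : -(N : ℤ) < 0 := by omega
    rcases mul_eq_zero.1 h1.symm with h | h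
    · left; exact (Zsqrtd.norm_eq_zero_iff hd a).1 h
    · right; exact (Zsqrtd.norm_eq_zero_iff hd b).1 h
  exact NoZeroDivisors.to_isDomain _

theorem hyp_one (N : ℕ) (hN : 2 ≤ N) :
    Hyp (zbasis (-(N : ℤ))) (Real.sqrt N) (Zsqrtd.sqrtd : ℤ√(-(N : ℤ))) N (-1) := by
  have hN1 : (1 : ℝ) ≤ N := by exact_mod_cast (by omega : 1 ≤ N)
  refine ⟨hN, ?_, ?_, by norm_num, zbasis_apply _, ?_⟩
  · rw [Real.one_le_sqrt]; exact hN1
  · rw [one_add_one_eq_two]
    exact Real.sq_sqrt (by positivity)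
  · rw [one_add_one_eq_two, sq, Zsqrtd.dmuld]
    congr 1
    ring

theorem comparable_one (N : ℕ) (hN : 2 ≤ N) :
    Comparable (s := 1) (zbasis (-(N : ℤ))) (Real.sqrt N) N (phi₁ N) 1 := by
  have hN1 : (1 : ℝ) < N := by exact_mod_cast (by omega : 1 < N)
  have hlogN : 0 < Real.log N := Real.log_pos hN1
  have hρ1 : 1 ≤ Real.sqrt N := by rw [Real.one_le_sqrt]; exact hN1.le
  have hsq : Real.sqrt N ^ 2 = N := Real.sq_sqrt (by positivity)
  constructor
  · unfold phi₁; simp
  · intro x hx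
    refine ⟨Real.logb N ((x.re : ℝ) ^ 2 + N * (x.im : ℝ) ^ 2), by unfold phi₁; rw [if_neg hx], ?_⟩
    set X := nrm (zbasis (-(N : ℤ))) (Real.sqrt N) x with hX
    have hX1 : 1 ≤ X := one_le_nrm _ _ hρ1 hx
    have hre : |(x.re : ℝ)| ≤ X := by
      have := coord_le_nrm (zbasis (-(N : ℤ))) (Real.sqrt N) (by linarith) x 0
      rw [zbasis_repr_zero] at this
      simpa using this
    have him : |(x.im : ℝ)| * Real.sqrt N ≤ X := by
      have := coord_le_nrm (zbasis (-(N : ℤ))) (Real.sqrt N) (by linarith) x 1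
      rw [zbasis_repr_one] at this
      simpa using this
    have hup : (x.re : ℝ) ^ 2 + N * (x.im : ℝ) ^ 2 ≤ 2 * X ^ 2 := by
      have h1 : (x.re : ℝ) ^ 2 ≤ X ^ 2 := by
        rw [← sq_abs]; exact pow_le_pow_left₀ (abs_nonneg _) hre 2
      have h2 : N * (x.im : ℝ) ^ 2 ≤ X ^ 2 := by
        have : (|(x.im : ℝ)| * Real.sqrt N) ^ 2 ≤ X ^ 2 :=
          pow_le_pow_left₀ (by positivity) him 2
        rw [mul_pow, hsq, sq_abs] at this
        linarith
      linarith
    have hlow : X ^ 2 ≤ (x.re : ℝ) ^ 2 + N * (x.im : ℝ) ^ 2 := by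
      have hnn : (0 : ℝ) ≤ (x.re : ℝ) ^ 2 + N * (x.im : ℝ) ^ 2 := by positivity
      have h1 : X ≤ Real.sqrt ((x.re : ℝ) ^ 2 + N * (x.im : ℝ) ^ 2) := by
        rw [hX, nrm_le_iff _ _ (by linarith) _ (Real.sqrt_nonneg _)]
        intro i
        apply Real.le_sqrt_of_sq_le
        rw [mul_pow, sq_abs]
        fin_cases i
        · show (((zbasis (-(N : ℤ))).repr x 0 : ℤ) : ℝ) ^ 2 * (Real.sqrt N ^ 0) ^ 2 ≤ _
          rw [zbasis_repr_zero]
          have : (0 : ℝ) ≤ N * (x.im : ℝ) ^ 2 := by positivity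
          simp only [pow_zero, one_pow, mul_one]
          linarith
        · show (((zbasis (-(N : ℤ))).repr x 1 : ℤ) : ℝ) ^ 2 * (Real.sqrt N ^ 1) ^ 2 ≤ _
          rw [zbasis_repr_one, pow_one, hsq]
          have : (0 : ℝ) ≤ (x.re : ℝ) ^ 2 := by positivity
          linarith
      calc X ^ 2 ≤ (Real.sqrt ((x.re : ℝ) ^ 2 + N * (x.im : ℝ) ^ 2)) ^ 2 :=
            pow_le_pow_left₀ (by linarith) h1 2
        _ = _ := Real.sq_sqrt hnn
    have hXpos : 0 < X := by linarith
    have e1 : ((1 : ℕ) : ℝ) + 1 = 2 := by norm_num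
    have h2X : 2 * Real.logb N X = Real.logb N (X ^ 2) := by
      rw [Real.logb_pow]; norm_num
    rw [e1, h2X]
    have hl1 : Real.logb N (X ^ 2) ≤ Real.logb N ((x.re : ℝ) ^ 2 + N * (x.im : ℝ) ^ 2) :=
      Real.logb_le_logb_of_le hN1 (by positivity) hlow
    have hl2 : Real.logb N ((x.re : ℝ) ^ 2 + N * (x.im : ℝ) ^ 2) ≤ Real.logb N (2 * X ^ 2) :=
      Real.logb_le_logb_of_le hN1 (lt_of_lt_of_le (by positivity) hlow) hup
    have hl3 : Real.logb N (2 * X ^ 2) = Real.logb N 2 + Real.logb N (X ^ 2) :=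
      Real.logb_mul (by norm_num) (by positivity)
    have hl4 : Real.logb N 2 ≤ 1 := by
      rw [Real.logb_le_iff_le_rpow hN1 (by norm_num), Real.rpow_one]
      exact_mod_cast hN
    rw [abs_le]
    constructor <;> linarith

/-- **Average `π`-adic complexity of finite sequences.**
(i) For `R = ℤ[√-N]`, `π = √-N`, `N ≥ 2`; (ii) for every domain `R` with a `ℤ`-basis
`1, π, ..., π^{d-1}` and `π^d = N`, `N ≥ 2`: every finite sequence over `{0, ..., N-1}` has a finite
`π`-adic complexity, attained by an infinite extension, and `E_n^fin = n/2 + O(1)`, with an implied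
constant independent of `n`. (Unique factorisation in `R` is not needed.) -/
theorem result :
    (∀ N : ℕ, 2 ≤ N →
      (∀ (n : ℕ) (a : Fin n → Fin N),
        (∃ b : ℕ → Fin N, (∀ i : Fin n, b i = a i) ∧
          lam (phi₁ N) N (Zsqrtd.sqrtd : ℤ√(-(N : ℤ))) b
            = lamFin (phi₁ N) N (Zsqrtd.sqrtd : ℤ√(-(N : ℤ))) n a) ∧
        ∃ t : ℝ, lamFin (phi₁ N) N (Zsqrtd.sqrtd : ℤ√(-(N : ℤ))) n a = (t : EReal)) ∧
      ∃ C : ℝ, ∀ n : ℕ,
        |Efin (phi₁ N) N (Zsqrtd.sqrtd : ℤ√(-(N : ℤ))) n - (n : ℝ) / 2| ≤ C) ∧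
    (∀ (R : Type u) [CommRing R] [IsDomain R] (N d : ℕ) (π : R) (e : Basis (Fin d) ℤ R),
      2 ≤ N → (∀ i, e i = π ^ (i : ℕ)) → π ^ d = (N : R) →
      (∀ (n : ℕ) (a : Fin n → Fin N),
        (∃ b : ℕ → Fin N, (∀ i : Fin n, b i = a i) ∧
          lam (phi₂ e N) N π b = lamFin (phi₂ e N) N π n a) ∧
        ∃ t : ℝ, lamFin (phi₂ e N) N π n a = (t : EReal)) ∧
      ∃ C : ℝ, ∀ n : ℕ, |Efin (phi₂ e N) N π n - (n : ℝ) / 2| ≤ C) := by
  constructor
  · intro N hN
    have := isDomain_zsqrtd N hN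
    exact h_average (hyp_one N hN) (comparable_one N hN)
  · intro R _ _ N d π e hN he hπ
    cases d with
    | zero =>
      exfalso
      have h1 : (1 : R) = 0 := by
        rw [← e.sum_repr 1]
        simp
      exact one_ne_zero h1
    | succ s => exact h_average (hyp_two N hN π e he hπ) (comparable_two N hN e)

end Pool.Agent.Results.MP_cc6759_lc.AverageFinite
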